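import Mathlib
import Pool.Agent.H16.Orph

set_option autoImplicit false

namespace Pool.Agent.Results.MP_642fbc_lc.No

open Pool.Agent.H16.Orph

theorem result : ¬ ∃ P : MvPolynomial (Fin 2) ℝ, ∀ (S : Type) [Finite S] [Nonempty S]
    (F : S → S → S), NonSurj F → ∃ l : ℕ,
      (l : ℝ) ≤ MvPolynomial.eval ![(Nat.card S : ℝ), (minOrph F : ℝ)] P ∧ 1 / 2 < rho F l :=
  main

end Pool.Agent.Results.MP_642fbc_lc.No
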